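import Mathlib

set_option autoImplicit false

namespace Pool.Agent.Results.MP_851083_pr.NontrivialAttractors

/-- The local rule `F(a,b,c,d) = max(min(a,b), min(c,d))` on `{0,1}` (`false = 0`, `true = 1`). -/
def F (a b c d : Bool) : Bool := max (min a b) (min c d)

/-- One step of the flattening automaton on configurations `x : ℤ × ℤ → {0,1}`:
`x'_{i,j} = F(x_{i,j}, x_{i,j-1}, x_{i-1,j}, x_{i-1,j-1})`. -/
def step (x : ℤ × ℤ → Bool) : ℤ × ℤ → Bool := fun p =>
  F (x (p.1, p.2)) (x (p.1, p.2 - 1)) (x (p.1 - 1, p.2)) (x (p.1 - 1, p.2 - 1))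

/-- The trajectory of `s`: `traj s n` is the configuration after `n` steps, that is
`traj s n (i, j) = x_{i,j,n-1}` in the notation `t = n - 1 ≥ -1` of the problem. -/
def traj (s : ℤ × ℤ → Bool) : ℕ → ℤ × ℤ → Bool
  | 0 => s
  | n + 1 => step (traj s n)

/-- `s` is an attractor: for every finite perturbation `s'` of `s` the trajectories of `s'` and
`s` differ at only finitely many space-time points. -/
def IsAttractor (s : ℤ × ℤ → Bool) : Prop :=
  ∀ s' : ℤ × ℤ → Bool, {p | s' p ≠ s p}.Finite →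
    {q : (ℤ × ℤ) × ℕ | traj s' q.2 q.1 ≠ traj s q.2 q.1}.Finite

lemma step_ones {x : ℤ × ℤ → Bool} {i0 i1 j0 j1 : ℤ} (hi : i0 ≤ i1)
    (h : ∀ i j : ℤ, i0 ≤ i → i ≤ i1 → j0 ≤ j → j ≤ j1 → x (i, j) = true) :
    ∀ i j : ℤ, i0 ≤ i → i ≤ i1 + 1 → j0 + 1 ≤ j → j ≤ j1 → step x (i, j) = true := by
  intro i j h1 h2 h3 h4
  unfold step F
  by_cases hc : i ≤ i1
  · rw [h i j h1 hc (by omega) h4, h i (j - 1) h1 hc (by omega) (by omega)]
    simp
  · rw [h (i - 1) j (by omega) (by omega) (by omega) h4,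
      h (i - 1) (j - 1) (by omega) (by omega) (by omega) (by omega)]
    simp

lemma step_zeros {x : ℤ × ℤ → Bool} {i0 i1 j0 j1 : ℤ} (hj : j0 ≤ j1)
    (h : ∀ i j : ℤ, i0 ≤ i → i ≤ i1 → j0 ≤ j → j ≤ j1 → x (i, j) = false) :
    ∀ i j : ℤ, i0 + 1 ≤ i → i ≤ i1 → j0 ≤ j → j ≤ j1 + 1 → step x (i, j) = false := by
  intro i j h1 h2 h3 h4
  unfold step F
  by_cases hc : j ≤ j1
  · rw [h i j (by omega) h2 h3 hc, h (i - 1) j (by omega) (by omega) h3 hc]
    simp
  · rw [h i (j - 1) (by omega) h2 (by omega) (by omega),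
      h (i - 1) (j - 1) (by omega) (by omega) (by omega) (by omega)]
    simp

lemma traj_ones {s : ℤ × ℤ → Bool} {i0 i1 j0 j1 : ℤ} (hi : i0 ≤ i1)
    (h : ∀ i j : ℤ, i0 ≤ i → i ≤ i1 → j0 ≤ j → j ≤ j1 → s (i, j) = true) (n : ℕ) :
    ∀ i j : ℤ, i0 ≤ i → i ≤ i1 + n → j0 + n ≤ j → j ≤ j1 → traj s n (i, j) = true := by
  induction n with
  | zero =>
    intro i j h1 h2 h3 h4
    exact h i j h1 (by simpa using h2) (by simpa using h3) h4
  | succ n ih =>
    intro i j h1 h2 h3 h4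
    push_cast at h2 h3
    exact step_ones (i0 := i0) (i1 := i1 + n) (j0 := j0 + n) (j1 := j1) (by omega) ih i j h1
      (by omega) (by omega) h4

lemma traj_zeros {s : ℤ × ℤ → Bool} {i0 i1 j0 j1 : ℤ} (hj : j0 ≤ j1)
    (h : ∀ i j : ℤ, i0 ≤ i → i ≤ i1 → j0 ≤ j → j ≤ j1 → s (i, j) = false) (n : ℕ) :
    ∀ i j : ℤ, i0 + n ≤ i → i ≤ i1 → j0 ≤ j → j ≤ j1 + n → traj s n (i, j) = false := by
  induction n with
  | zero =>
    intro i j h1 h2 h3 h4
    exact h i j (by simpa using h1) h2 h3 (by simpa using h4)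
  | succ n ih =>
    intro i j h1 h2 h3 h4
    push_cast at h1 h4
    exact step_zeros (i0 := i0 + n) (i1 := i1) (j0 := j0) (j1 := j1 + n) (by omega) ih i j
      (by omega) h2 h3 (by omega)

/-- Finite speed of propagation. -/
lemma traj_local {s s' : ℤ × ℤ → Bool} {R : ℤ}
    (h : ∀ i j : ℤ, (i < -R ∨ R < i ∨ j < -R ∨ R < j) → s' (i, j) = s (i, j)) (n : ℕ) :
    ∀ i j : ℤ, (i < -R ∨ R + n < i ∨ j < -R ∨ R + n < j) → traj s' n (i, j) = traj s n (i, j) := by
  induction n with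
  | zero =>
    intro i j hij
    exact h i j (by simpa using hij)
  | succ n ih =>
    intro i j hij
    push_cast at hij
    show step (traj s' n) (i, j) = step (traj s n) (i, j)
    unfold step
    simp only
    rw [ih i j (by omega), ih i (j - 1) (by omega), ih (i - 1) j (by omega),
      ih (i - 1) (j - 1) (by omega)]

lemma traj_eq_of_eq {s s' : ℤ × ℤ → Bool} {n m : ℕ} (hnm : n ≤ m)
    (h : traj s' n = traj s n) : traj s' m = traj s m := by
  induction m, hnm using Nat.le_induction with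
  | base => exact h
  | succ m _ ih =>
    show step (traj s' m) = step (traj s m)
    rw [ih]

/-- The value on the `k`-th annulus fills the whole box at time `2 * 3^k - 1`. -/
lemma fill {z : ℤ × ℤ → Bool} (k : ℕ) (v : Bool)
    (h : ∀ i j : ℤ, (-(3 ^ (k + 1) - 1) ≤ i ∧ i ≤ 3 ^ (k + 1) - 1) →
      (-(3 ^ (k + 1) - 1) ≤ j ∧ j ≤ 3 ^ (k + 1) - 1) →
      (i ≤ -3 ^ k ∨ 3 ^ k ≤ i ∨ j ≤ -3 ^ k ∨ 3 ^ k ≤ j) → z (i, j) = v) :
    ∀ i j : ℤ, -(3 ^ k) ≤ i → i ≤ 3 ^ (k + 1) - 1 → -(3 ^ k) ≤ j → j ≤ 3 ^ (k + 1) - 1 →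
      traj z (2 * 3 ^ k - 1) (i, j) = v := by
  have hk : (1 : ℤ) ≤ 3 ^ k := by
    have : 0 < (3 : ℤ) ^ k := by positivity
    omega
  have hT : ((2 * 3 ^ k - 1 : ℕ) : ℤ) = 2 * 3 ^ k - 1 := by
    have : 1 ≤ 2 * 3 ^ k := by
      have : 0 < 3 ^ k := by positivity
      omega
    push_cast [Nat.cast_sub this]
    ring
  rw [pow_succ] at h
  intro i j h1 h2 h3 h4
  rw [pow_succ] at h2 h4
  generalize hK : (3 : ℤ) ^ k = K at *
  generalize (2 * 3 ^ k - 1 : ℕ) = T at *
  cases v with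
  | true =>
    by_cases hc : i ≤ K - 1
    · refine traj_ones (s := z) (i0 := -(K * 3 - 1)) (i1 := -K) (j0 := -(K * 3 - 1))
        (j1 := K * 3 - 1) (by omega) ?_ T i j (by omega) (by omega) (by omega) (by omega)
      intro i j a b c d
      exact h i j ⟨by omega, by omega⟩ ⟨by omega, by omega⟩ (by omega)
    · refine traj_ones (s := z) (i0 := K) (i1 := K * 3 - 1) (j0 := -(K * 3 - 1))
        (j1 := K * 3 - 1) (by omega) ?_ T i j (by omega) (by omega) (by omega) (by omega)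
      intro i j a b c d
      exact h i j ⟨by omega, by omega⟩ ⟨by omega, by omega⟩ (by omega)
  | false =>
    by_cases hc : j ≤ K - 1
    · refine traj_zeros (s := z) (i0 := -(K * 3 - 1)) (i1 := K * 3 - 1) (j0 := -(K * 3 - 1))
        (j1 := -K) (by omega) ?_ T i j (by omega) (by omega) (by omega) (by omega)
      intro i j a b c d
      exact h i j ⟨by omega, by omega⟩ ⟨by omega, by omega⟩ (by omega)
    · refine traj_zeros (s := z) (i0 := -(K * 3 - 1)) (i1 := K * 3 - 1) (j0 := K)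
        (j1 := K * 3 - 1) (by omega) ?_ T i j (by omega) (by omega) (by omega) (by omega)
      intro i j a b c d
      exact h i j ⟨by omega, by omega⟩ ⟨by omega, by omega⟩ (by omega)

/-- The corner `(3^(k+1)-1, 3^(k+1)-1)` keeps its value up to time `2 (3^(k+1)-1)`. -/
lemma corner {z : ℤ × ℤ → Bool} (k : ℕ) (v : Bool)
    (h : ∀ i j : ℤ, (-(3 ^ (k + 1) - 1) ≤ i ∧ i ≤ 3 ^ (k + 1) - 1) →
      (-(3 ^ (k + 1) - 1) ≤ j ∧ j ≤ 3 ^ (k + 1) - 1) →
      (i ≤ -3 ^ k ∨ 3 ^ k ≤ i ∨ j ≤ -3 ^ k ∨ 3 ^ k ≤ j) → z (i, j) = v) (n : ℕ)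
    (hn : n ≤ k) :
    traj z n (3 ^ (k + 1) - 1, 3 ^ (k + 1) - 1) = v := by
  have hk : (1 : ℤ) ≤ 3 ^ k := by
    have : 0 < (3 : ℤ) ^ k := by positivity
    omega
  have hnk : (n : ℤ) < 3 ^ k := by
    have h1 : n < 3 ^ k := lt_of_le_of_lt hn (Nat.lt_pow_self (by norm_num))
    exact_mod_cast h1
  rw [pow_succ] at h ⊢
  generalize hK : (3 : ℤ) ^ k = K at *
  cases v with
  | true =>
    refine traj_ones (s := z) (i0 := K) (i1 := K * 3 - 1) (j0 := -(K * 3 - 1))
      (j1 := K * 3 - 1) (by omega) ?_ n _ _ (by omega) (by omega) (by omega) (by omega)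
    intro i j a b c d
    exact h i j ⟨by omega, by omega⟩ ⟨by omega, by omega⟩ (by omega)
  | false =>
    refine traj_zeros (s := z) (i0 := -(K * 3 - 1)) (i1 := K * 3 - 1) (j0 := K)
      (j1 := K * 3 - 1) (by omega) ?_ n _ _ (by omega) (by omega) (by omega) (by omega)
    intro i j a b c d
    exact h i j ⟨by omega, by omega⟩ ⟨by omega, by omega⟩ (by omega)

/-- The layered configuration: value `ε k` on `3^k ≤ max(|i|,|j|) < 3^(k+1)`. -/
def layered (ε : ℕ → Bool) : ℤ × ℤ → Bool := fun p =>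
  ε (Nat.log 3 (max p.1.natAbs p.2.natAbs))

lemma layered_annulus (ε : ℕ → Bool) (k : ℕ) (i j : ℤ)
    (hi : -(3 ^ (k + 1) - 1) ≤ i ∧ i ≤ 3 ^ (k + 1) - 1)
    (hj : -(3 ^ (k + 1) - 1) ≤ j ∧ j ≤ 3 ^ (k + 1) - 1)
    (hij : i ≤ -3 ^ k ∨ 3 ^ k ≤ i ∨ j ≤ -3 ^ k ∨ 3 ^ k ≤ j) :
    layered ε (i, j) = ε k := by
  unfold layered
  have : Nat.log 3 (max i.natAbs j.natAbs) = k := by
    rw [Nat.log_eq_iff (Or.inr ⟨by norm_num, ?_⟩)]
    · have e1 : ((3 ^ k : ℕ) : ℤ) = 3 ^ k := by push_cast; rfl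
      have e2 : ((3 ^ (k + 1) : ℕ) : ℤ) = 3 ^ (k + 1) := by push_cast; rfl
      rw [← e1] at hij
      rw [← e2] at hi hj
      constructor
      · omega
      · omega
    · have e1 : ((3 ^ k : ℕ) : ℤ) = 3 ^ k := by push_cast; rfl
      have : 0 < 3 ^ k := by positivity
      rw [← e1] at hij
      omega
  simp only [this]

lemma layered_isAttractor (ε : ℕ → Bool) : IsAttractor (layered ε) := by
  intro s' hs'
  -- choose k with the perturbation inside the box of radius 3^k - 1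
  obtain ⟨M, hM⟩ : ∃ M : ℕ, ∀ p ∈ {p | s' p ≠ layered ε p}, p.1.natAbs ≤ M ∧ p.2.natAbs ≤ M := by
    obtain ⟨M1, hM1⟩ := (hs'.image (fun p => p.1.natAbs)).bddAbove
    obtain ⟨M2, hM2⟩ := (hs'.image (fun p => p.2.natAbs)).bddAbove
    refine ⟨max M1 M2, fun p hp => ⟨?_, ?_⟩⟩
    · exact le_trans (hM1 ⟨p, hp, rfl⟩) (le_max_left _ _)
    · exact le_trans (hM2 ⟨p, hp, rfl⟩) (le_max_right _ _)
  have hMk : M < 3 ^ M := Nat.lt_pow_self (by norm_num)
  have hMk' : (M : ℤ) < 3 ^ M := by exact_mod_cast hMk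
  have houts : ∀ i j : ℤ, (i ≤ -3 ^ M ∨ 3 ^ M ≤ i ∨ j ≤ -3 ^ M ∨ 3 ^ M ≤ j) →
      s' (i, j) = layered ε (i, j) := by
    intro i j hij
    by_contra hne
    have := hM (i, j) hne
    simp only at this
    omega
  have hk1 : (1 : ℤ) ≤ 3 ^ M := by
    have : 0 < (3 : ℤ) ^ M := by positivity
    omega
  have hT : ((2 * 3 ^ M - 1 : ℕ) : ℤ) = 2 * 3 ^ M - 1 := by
    have : 1 ≤ 2 * 3 ^ M := by
      have : 0 < 3 ^ M := by positivity
      omega
    push_cast [Nat.cast_sub this]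
    ring
  have hloc := traj_local (s := layered ε) (s' := s') (R := 3 ^ M - 1)
    (fun i j hij => houts i j (by omega))
  have heq : traj s' (2 * 3 ^ M - 1) = traj (layered ε) (2 * 3 ^ M - 1) := by
    funext ⟨i, j⟩
    by_cases hc : i < -(3 ^ M - 1) ∨ 3 ^ M - 1 + ((2 * 3 ^ M - 1 : ℕ) : ℤ) < i ∨
        j < -(3 ^ M - 1) ∨ 3 ^ M - 1 + ((2 * 3 ^ M - 1 : ℕ) : ℤ) < j
    · exact hloc _ i j hc
    · rw [hT] at hc
      have hp : (3 : ℤ) ^ (M + 1) = 3 ^ M * 3 := pow_succ _ _
      have a1 := fill (z := layered ε) M (ε M) (fun i j => layered_annulus ε M i j) i j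
        (by omega) (by omega) (by omega) (by omega)
      have a2 := fill (z := s') M (ε M) (fun i j h1 h2 h3 => by
        rw [houts i j h3]
        exact layered_annulus ε M i j h1 h2 h3) i j
        (by omega) (by omega) (by omega) (by omega)
      rw [a1, a2]
  refine Set.Finite.subset (s := ((Finset.Icc (-(3 ^ M - 1) : ℤ) (3 * 3 ^ M) ×ˢ
    Finset.Icc (-(3 ^ M - 1) : ℤ) (3 * 3 ^ M)) ×ˢ Finset.range (2 * 3 ^ M - 1) :
      Finset ((ℤ × ℤ) × ℕ))) (Finset.finite_toSet _) ?_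
  rintro ⟨⟨i, j⟩, n⟩ hne
  simp only [Set.mem_ofPred_eq] at hne
  have hn : n < 2 * 3 ^ M - 1 := by
    by_contra hcon
    push Not at hcon
    apply hne
    rw [traj_eq_of_eq hcon heq]
  have hn' : (n : ℤ) < 2 * 3 ^ M - 1 := by
    rw [← hT]; exact_mod_cast hn
  have hc : ¬ (i < -(3 ^ M - 1) ∨ 3 ^ M - 1 + (n : ℤ) < i ∨
        j < -(3 ^ M - 1) ∨ 3 ^ M - 1 + (n : ℤ) < j) := fun hc => hne (hloc n i j hc)
  simp only [Finset.coe_product, Finset.coe_Icc, Finset.coe_range, Set.mem_prod, Set.mem_Icc,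
    Set.mem_Iio]
  refine ⟨⟨⟨?_, ?_⟩, ?_, ?_⟩, hn⟩ <;> omega

/-- There are continuum many bunches of attractors outside the two trivial ones.  More precisely
there is a family `Φ b` of initial configurations, indexed by all binary sequences `b`, such that
each `Φ b` is an attractor, any two of them differ at infinitely many sites (so they lie in
different bunches), at every time the configuration of the trajectory of `Φ b` has infinitely many
zeroes and infinitely many ones, and at every site the trajectory of `Φ b` takes each of the two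
values at infinitely many times. -/
theorem result :
    ∃ Φ : (ℕ → Bool) → (ℤ × ℤ → Bool),
      (∀ b, IsAttractor (Φ b) ∧
        (∀ n : ℕ, {p | traj (Φ b) n p = false}.Infinite ∧ {p | traj (Φ b) n p = true}.Infinite) ∧
        (∀ p : ℤ × ℤ, {n | traj (Φ b) n p = false}.Infinite ∧
          {n | traj (Φ b) n p = true}.Infinite)) ∧
      (∀ b b', b ≠ b' → {p | Φ b p ≠ Φ b' p}.Infinite) := by
  -- the coding of `b` in which every value is repeated infinitely often
  let c : (ℕ → Bool) → ℕ → Bool := fun b i => match i with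
    | 0 => false
    | 1 => true
    | (m + 2) => b m
  let ε : (ℕ → Bool) → ℕ → Bool := fun b k => c b (Nat.unpair k).1
  have hinf : ∀ i : ℕ, {k : ℕ | (Nat.unpair k).1 = i}.Infinite := by
    intro i
    apply Set.infinite_of_injective_forall_mem (f := fun j => Nat.pair i j)
    · intro j j' h
      have := congrArg (fun k => (Nat.unpair k).2) h
      simpa using this
    · intro j
      simp
  have hval : ∀ (b : ℕ → Bool) (v : Bool), {k | ε b k = v}.Infinite := by
    intro b v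
    cases v with
    | false =>
      refine (hinf 0).mono ?_
      intro k hk
      simp only [Set.mem_ofPred_eq] at hk ⊢
      simp [ε, hk, c]
    | true =>
      refine (hinf 1).mono ?_
      intro k hk
      simp only [Set.mem_ofPred_eq] at hk ⊢
      simp [ε, hk, c]
  refine ⟨fun b => layered (ε b), fun b => ⟨layered_isAttractor _, ?_, ?_⟩, ?_⟩
  · -- infinitely many zeroes and ones at each time
    intro n
    have key : ∀ v : Bool, {p | traj (layered (ε b)) n p = v}.Infinite := by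
      intro v
      have hI : ({k | ε b k = v} \ {k | k < n}).Infinite :=
        (hval b v).sdiff (Set.finite_lt_nat n)
      have hinj : Set.InjOn (fun k : ℕ => (((3 : ℤ) ^ (k + 1) - 1, (3 : ℤ) ^ (k + 1) - 1) : ℤ × ℤ))
          ({k | ε b k = v} \ {k | k < n}) := by
        intro k _ k' _ h
        simp only [Prod.mk.injEq, and_self] at h
        have h1 : (3 : ℤ) ^ (k + 1) = 3 ^ (k' + 1) := by linarith
        have h2 := pow_right_injective₀ (by norm_num : (0 : ℤ) < 3) (by norm_num) h1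
        omega
      refine (hI.image hinj).mono ?_
      rintro _ ⟨k, ⟨hk, hkn⟩, rfl⟩
      simp only [Set.mem_ofPred_eq, not_lt] at hk hkn ⊢
      rw [corner k (ε b k) (fun i j => layered_annulus (ε b) k i j) n hkn, hk]
    exact ⟨key false, key true⟩
  · intro p
    have key : ∀ v : Bool, {n | traj (layered (ε b)) n p = v}.Infinite := by
      intro v
      have hI : ({k | ε b k = v} \ {k | k < max p.1.natAbs p.2.natAbs}).Infinite :=
        (hval b v).sdiff (Set.finite_lt_nat _)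
      have hinj : Set.InjOn (fun k : ℕ => (2 * 3 ^ k - 1 : ℕ))
          ({k | ε b k = v} \ {k | k < max p.1.natAbs p.2.natAbs}) := by
        intro k _ k' _ h
        simp only at h
        have h0 : 0 < 3 ^ k := by positivity
        have h0' : 0 < 3 ^ k' := by positivity
        have h1 : 3 ^ k = 3 ^ k' := by omega
        exact Nat.pow_right_injective (le_refl 2 |>.trans (by norm_num)) h1
      refine (hI.image hinj).mono ?_
      rintro _ ⟨k, ⟨hk, hkn⟩, rfl⟩
      simp only [Set.mem_ofPred_eq, not_lt] at hk hkn ⊢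
      obtain ⟨i, j⟩ := p
      have h3 : k < 3 ^ k := Nat.lt_pow_self (by norm_num)
      have h3' : (k : ℤ) < 3 ^ k := by exact_mod_cast h3
      have hp : (3 : ℤ) ^ (k + 1) = 3 ^ k * 3 := pow_succ _ _
      simp only at hkn
      rw [fill k (ε b k) (fun i j => layered_annulus (ε b) k i j) i j (by omega) (by omega)
        (by omega) (by omega), hk]
    exact ⟨key false, key true⟩
  · intro b b' hbb
    obtain ⟨m, hm⟩ := Function.ne_iff.mp hbb
    have hI := hinf (m + 2)
    have hinj : Set.InjOn (fun k : ℕ => (((3 : ℤ) ^ k, (0 : ℤ)) : ℤ × ℤ))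
        {k : ℕ | (Nat.unpair k).1 = m + 2} := by
      intro k _ k' _ h
      simp only [Prod.mk.injEq, and_true] at h
      exact pow_right_injective₀ (by norm_num : (0 : ℤ) < 3) (by norm_num) h
    refine (hI.image hinj).mono ?_
    rintro _ ⟨k, hk, rfl⟩
    simp only [Set.mem_ofPred_eq] at hk ⊢
    have hk1 : (1 : ℤ) ≤ 3 ^ k := by
      have : 0 < (3 : ℤ) ^ k := by positivity
      omega
    have hp : (3 : ℤ) ^ (k + 1) = 3 ^ k * 3 := pow_succ _ _
    rw [layered_annulus (ε b) k _ _ ⟨by omega, by omega⟩ ⟨by omega, by omega⟩ (by omega),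
      layered_annulus (ε b') k _ _ ⟨by omega, by omega⟩ ⟨by omega, by omega⟩ (by omega)]
    simpa [ε, hk, c] using hm

end Pool.Agent.Results.MP_851083_pr.NontrivialAttractors
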